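import Pool.Agent.Lib.MP_dec75e_mp.U.Fin4

open MeasureTheory Filter
open scoped Real Topology

namespace Pool.Agent.Variants.MP_dec75e_mp.BogLaw

open Pool.Agent.BoseTail

theorem result (v f φ : E3 → ℝ) (a η : ℝ)
    (hv : Continuous v) (hv0 : ∀ x, 0 ≤ v x) (hvm : ∀ x y, ‖x‖ ≤ ‖y‖ → v y ≤ v x)
    (hvc : HasCompactSupport v)
    (hf : ContDiff ℝ 2 f) (hfe : ∀ x, Laplacian.laplacian f x = v x * f x)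
    (hfa : Tendsto (fun x => ‖x‖ * (1 - f x)) (cocompact E3) (𝓝 a)) (ha : 0 < a)
    (hφ : ContDiff ℝ (⊤ : ℕ∞) φ) (hφc : HasCompactSupport φ) (hφ0 : 0 ∉ tsupport φ)
    (hφe : ∀ κ κ' : E3, (∀ c, |κ c| = |κ' c|) → φ κ = φ κ') (hη : 0 < η) :
    ∃ ρ₀ η' : ℝ, 0 < ρ₀ ∧ 0 < η' ∧ ∀ (N : ℕ) (L : ℝ) [Fact (0 < L)] (ψ : Cf N L → ℂ),
      N / L ^ 3 ≤ ρ₀ → L ^ 5 ≤ (N : ℝ) ^ 2 → Adm ψ →
      (∀ χ : Cf N L → ℂ, Adm χ → energy v ψ ≤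
        energy v χ + η' * (2 * π * a * (N / L ^ 3) * N * √(N / L ^ 3 * a ^ 3))) →
      (Summable fun n : Fin 3 → ℤ => φ ((√(8 * π * (N / L ^ 3) * a))⁻¹ • kvec L n) *
        (2 * (N / L ^ 3) * Mom ψ n)) ∧
      |(∑' n : Fin 3 → ℤ, φ ((√(8 * π * (N / L ^ 3) * a))⁻¹ • kvec L n) *
          (2 * (N / L ^ 3) * Mom ψ n)) / (L * √(8 * π * (N / L ^ 3) * a)) ^ 3 -
        (∫ κ : E3, φ κ * gB ‖κ‖) / (2 * π) ^ 3| ≤ η := by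
  obtain ⟨ρ₀, η', h1, h2, H⟩ := Pool.Agent.BoseLHY.weak_law
    ⟨hv, hv0, fun x y h => le_antisymm (hvm y x h.ge) (hvm x y h.le), hvc, hf, hfe, hfa, ha⟩ hvm
    hφ hφc hφ0 hφe hη
  refine ⟨ρ₀, η', h1, h2, fun N L _ ψ a1 a2 a3 a4 => ?_⟩
  obtain ⟨A, hA, hb⟩ := H N L ψ a1 a2 a3 a4
  exact ⟨hA.summable, hA.tsum_eq ▸ hb⟩

end Pool.Agent.Variants.MP_dec75e_mp.BogLaw
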