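import Pool.Agent.Lib.MP_dec75e_mp.S.Fin6

open MeasureTheory Filter
open scoped Real Topology

namespace Pool.Agent.Variants.MP_dec75e_mp.StrongLaw

open Pool.Agent.BoseTail

theorem result (v f : E3 → ℝ) (a α β η : ℝ)
    (hv : Continuous v) (hv0 : ∀ x, 0 ≤ v x) (hvm : ∀ x y, ‖x‖ ≤ ‖y‖ → v y ≤ v x)
    (hvc : HasCompactSupport v)
    (hf : ContDiff ℝ 2 f) (hfe : ∀ x, Laplacian.laplacian f x = v x * f x)
    (hfa : Tendsto (fun x => ‖x‖ * (1 - f x)) (cocompact E3) (𝓝 a)) (ha : 0 < a)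
    (hα : 0 < α) (hαβ : α < β) (hη : 0 < η) :
    ∃ ρ₀ η' : ℝ, 0 < ρ₀ ∧ 0 < η' ∧ ∀ (N : ℕ) (L : ℝ) [Fact (0 < L)] (ψ : Cf N L → ℂ),
      N / L ^ 3 ≤ ρ₀ → L ^ 5 ≤ (N : ℝ) ^ 2 → Adm ψ →
      (∀ χ : Cf N L → ℂ, Adm χ → energy v ψ ≤
        energy v χ + η' * (2 * π * a * (N / L ^ 3) * N * √(N / L ^ 3 * a ^ 3))) →
      ∃ S : Finset (Fin 3 → ℤ),
        (∀ n, n ∈ S ↔ α ≤ ‖kvec L n‖ / √(8 * π * (N / L ^ 3) * a) ∧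
          ‖kvec L n‖ / √(8 * π * (N / L ^ 3) * a) ≤ β) ∧ S.Nonempty ∧
        ∑ n ∈ S, |2 * (N / L ^ 3) * Mom ψ n - gB (‖kvec L n‖ / √(8 * π * (N / L ^ 3) * a))| ≤
          η * S.card := by
  obtain ⟨ρ₀, η', h1, h2, H⟩ := Pool.Agent.BoseLHY.strong_law_mean
    ⟨hv, hv0, fun x y h => le_antisymm (hvm y x h.ge) (hvm x y h.le), hvc, hf, hfe, hfa, ha⟩ hvm
    hα hαβ hη
  refine ⟨ρ₀, η', h1, h2, fun N L _ ψ a1 a2 a3 a4 => ?_⟩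
  have h := H N L ψ a1 a2 a3 a4
  simp only [norm_smul, norm_inv, Real.norm_eq_abs, abs_of_nonneg (Real.sqrt_nonneg _),
    ← div_eq_inv_mul] at h
  exact h

end Pool.Agent.Variants.MP_dec75e_mp.StrongLaw
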